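import Pool.Agent.H56.CF.Targets

/-!
# Complete family (`MP_347b49_nt`), row RMNK: Minkowski's theorem for an ideal of a real quadratic
field
-/

set_option autoImplicit false

open NumberField Module MeasureTheory
open scoped nonZeroDivisors NNReal ENNReal

namespace Pool.Agent.H54.CF

open Pool.Agent.H56.CF Pool.Agent.H24.Cls

section
variable {K : Type} [Field K] [NumberField K]

/-- the place of a real embedding -/
private noncomputable def pl (σ : K →+* ℝ) : InfinitePlace K :=
  InfinitePlace.mk (Complex.ofRealHom.comp σ)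

private theorem pl_apply (σ : K →+* ℝ) (x : K) : pl σ x = |σ x| := by
  unfold pl
  rw [InfinitePlace.apply]
  simp

private theorem pl_ne {σ τ : K →+* ℝ} (h : σ ≠ τ) : pl σ ≠ pl τ := by
  intro he
  unfold pl at he
  apply h
  have h1 : Complex.ofRealHom.comp σ = Complex.ofRealHom.comp τ := by
    rcases InfinitePlace.mk_eq_iff.1 he with h1 | h1
    · exact h1
    · rw [← h1]
      ext x
      simp [ComplexEmbedding.conjugate_coe_eq]
  ext x
  have h2 := RingHom.congr_fun h1 x
  simpa using h2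

private theorem card_two (h : finrank ℚ K = 2) (hd : 0 < discr K) :
    Fintype.card (InfinitePlace K) = 2 ∧ InfinitePlace.nrRealPlaces K = 2 := by
  have h0 := complex_zero K h hd
  have h1 := InfinitePlace.card_add_two_mul_card_eq_rank K
  rw [h] at h1
  have h2 := InfinitePlace.card_eq_nrRealPlaces_add_nrComplexPlaces K
  omega

private theorem univ_eq [DecidableEq (InfinitePlace K)] (h : finrank ℚ K = 2) (hd : 0 < discr K) {σ τ : K →+* ℝ} (hn : σ ≠ τ) :
    (Finset.univ : Finset (InfinitePlace K)) = {pl σ, pl τ} := by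
  symm
  apply Finset.eq_univ_of_card
  rw [Finset.card_pair (pl_ne hn), (card_two h hd).1]

end

theorem pf_MNK (_hE : T_EMB) : T_MNK := by
  classical
  intro K _ _ h hd σ τ hn J hJ u hu
  have hdR : (0 : ℝ) < discr K := by exact_mod_cast hd
  have hN : 0 < (Ideal.absNorm J : ℝ) := by
    have : Ideal.absNorm J ≠ 0 := by
      intro h0
      exact hJ (Ideal.absNorm_eq_zero_iff.1 h0)
    exact_mod_cast Nat.pos_of_ne_zero this
  set k : ℝ := √(2 * √(discr K : ℝ) * Ideal.absNorm J) with hk
  have hk0 : 0 < k := Real.sqrt_pos.2 (by positivity)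
  have hk2 : k * k = 2 * √(discr K : ℝ) * Ideal.absNorm J := Real.mul_self_sqrt (by positivity)
  obtain ⟨I, hI⟩ : ∃ I : (FractionalIdeal (𝓞 K)⁰ K)ˣ, (I : FractionalIdeal (𝓞 K)⁰ K) = J :=
    ⟨Units.mk0 (J : FractionalIdeal (𝓞 K)⁰ K) (FractionalIdeal.coeIdeal_ne_zero.2 hJ), rfl⟩
  obtain ⟨f, hf⟩ : ∃ f : InfinitePlace K → ℝ≥0, f = fun w =>
    if w = pl σ then Real.toNNReal (u * k) else Real.toNNReal (k / u) := ⟨_, rfl⟩
  have hf1 : (f (pl σ) : ℝ) = u * k := by
    rw [hf]
    simp only [if_pos]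
    exact Real.coe_toNNReal _ (by positivity)
  have hf2 : (f (pl τ) : ℝ) = k / u := by
    rw [hf]
    simp only [if_neg (pl_ne hn).symm]
    exact Real.coe_toNNReal _ (by positivity)
  have h0 := complex_zero K h hd
  have hmult : ∀ w : InfinitePlace K, w.mult = 1 := by
    intro w
    have hw : w.IsReal := by
      by_contra hw
      rw [InfinitePlace.not_isReal_iff_isComplex] at hw
      have h1 : Fintype.card {w : InfinitePlace K // w.IsComplex} = 0 := h0
      rw [Fintype.card_eq_zero_iff] at h1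
      exact h1.false ⟨w, hw⟩
    exact InfinitePlace.mult_isReal ⟨w, hw⟩
  have hvol : volume (mixedEmbedding.convexBodyLT K f) =
      ENNReal.ofReal (4 * (2 * √(discr K : ℝ) * Ideal.absNorm J)) := by
    rw [mixedEmbedding.convexBodyLT_volume]
    have h1 : (mixedEmbedding.convexBodyLTFactor K : ℝ≥0∞) = ENNReal.ofReal 4 := by
      rw [mixedEmbedding.convexBodyLTFactor, h0, (card_two h hd).2]
      norm_num
    have h2 : ((∏ w, f w ^ w.mult : ℝ≥0) : ℝ≥0∞) =
        ENNReal.ofReal (2 * √(discr K : ℝ) * Ideal.absNorm J) := by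
      rw [univ_eq h hd hn, Finset.prod_pair (pl_ne hn), hmult, hmult, pow_one, pow_one]
      rw [← ENNReal.ofReal_coe_nnreal]
      congr 1
      push_cast
      rw [hf1, hf2, ← hk2]
      field_simp
    rw [h1, h2, ← ENNReal.ofReal_mul (by norm_num)]
  have hmin : mixedEmbedding.minkowskiBound K I =
      ENNReal.ofReal (Ideal.absNorm J * √(discr K : ℝ) * 4) := by
    rw [mixedEmbedding.minkowskiBound,
      mixedEmbedding.volume_fundamentalDomain_fractionalIdealLatticeBasis,
      mixedEmbedding.volume_fundamentalDomain_latticeBasis, mixedEmbedding.finrank, h, h0, hI,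
      FractionalIdeal.coeIdeal_absNorm]
    have h3 : ((NNReal.sqrt ‖discr K‖₊ : ℝ≥0) : ℝ≥0∞) = ENNReal.ofReal (√(discr K : ℝ)) := by
      rw [← ENNReal.ofReal_coe_nnreal]
      congr 1
      rw [Real.coe_sqrt, coe_nnnorm, Int.norm_eq_abs, abs_of_pos hdR]
    rw [h3, pow_zero, one_mul, ← ENNReal.ofReal_mul (by positivity)]
    have h4 : (2 : ℝ≥0∞) ^ 2 = ENNReal.ofReal 4 := by
      norm_num
    rw [h4, ← ENNReal.ofReal_mul (by positivity)]
    simp
  have hlt : mixedEmbedding.minkowskiBound K I < volume (mixedEmbedding.convexBodyLT K f) := by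
    rw [hvol, hmin]
    refine (ENNReal.ofReal_lt_ofReal_iff (by positivity)).2 ?_
    have : 0 < √(discr K : ℝ) := Real.sqrt_pos.2 hdR
    nlinarith [mul_pos this hN]
  obtain ⟨a, ha, ha0, haw⟩ := mixedEmbedding.exists_ne_zero_mem_ideal_lt K I hlt
  rw [hI, FractionalIdeal.mem_coeIdeal] at ha
  obtain ⟨α, hα, rfl⟩ := ha
  refine ⟨α, hα, ?_, ?_, ?_⟩
  · rintro rfl
    exact ha0 (map_zero _)
  · have h5 := haw (pl σ)
    rw [pl_apply, hf1] at h5
    exact h5.le
  · have h5 := haw (pl τ)
    rw [pl_apply, hf2] at h5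
    exact h5.le

end Pool.Agent.H54.CF
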