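import Pool.Agent.H37.CF.Basic

/-!
# Complete family (`MP_347b49_nt`), row CNPR: the number of the primitive characters
-/

set_option autoImplicit false

open NumberField Pool.Agent.H31.CN Pool.Agent.H95.CF Pool.Agent.H28.RC Pool.Agent.H37.CF
open Pool.Agent.H91.CF (ch npt npD xit xiD pit piD TrQ NRe NVc RQ nn rr ww fmD Fu)
open Pool.Agent.H24.Cls (Quad)
open scoped nonZeroDivisors

namespace Pool.Agent.H54.CF

/-- **NPR.** -/
theorem pf_NPR (hHSB : T_HSB) (hGRP : T_GRP) (hPRC : Pool.Agent.H37.CF.T_PRC) :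
    T_NPR := by
  intro K _ _ D f G _ _ cl hIQ hf hRG
  classical
  obtain ⟨H, hH, hH1, hHs⟩ := hHSB K D f G cl hIQ hf hRG
  have hG := hGRP K D f G cl hIQ hf hRG
  have hdvd : ∀ t ⊆ f.primeFactors, (∏ p ∈ t, p) ∣ f := fun t ht =>
    Finset.prod_primes_dvd f (fun p hp => (Nat.prime_of_mem_primeFactors (ht hp)).prime)
      (fun p hp => Nat.dvd_of_mem_primeFactors (ht hp))
  have key : ∀ t : Finset ℕ, t ⊆ f.primeFactors →
      (⨆ p ∈ t, H p) = H (∏ p ∈ t, p) ∧ Squarefree (∏ p ∈ t, p) := by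
    intro t
    induction t using Finset.induction_on with
    | empty => intro _; simp [hH1]
    | insert a t ha ih =>
      intro hs
      have hs' : t ⊆ f.primeFactors := (Finset.subset_insert a t).trans hs
      obtain ⟨ih1, ih2⟩ := ih hs'
      have ha' : a.Prime := Nat.prime_of_mem_primeFactors (hs (Finset.mem_insert_self a t))
      have hdv : a * ∏ p ∈ t, p ∣ f := by
        have h5 := hdvd _ hs
        rwa [Finset.prod_insert ha] at h5
      have hcop : Nat.Coprime a (∏ p ∈ t, p) := by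
        refine Nat.Coprime.prod_right fun p hp => ?_
        refine (Nat.coprime_primes ha' (Nat.prime_of_mem_primeFactors (hs' hp))).2 ?_
        rintro rfl
        exact ha hp
      rw [Finset.iSup_insert, ih1, Finset.prod_insert ha]
      exact ⟨((hHs a _ hdv hcop).1).symm, (Nat.squarefree_mul hcop).2 ⟨ha'.prime.squarefree, ih2⟩⟩
  have hcard : ∀ d, d ∣ f → Squarefree d →
      (Nat.card (H d) : ℤ) = ∏ p ∈ d.primeFactors, npD f p D := by
    intro d hd hsq
    have h1 := hG.2 d hd hsq
    rw [← hH d hd] at h1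
    exact h1
  have hcp : ∀ p ∈ f.primeFactors, (Nat.card (H p) : ℤ) = npD f p D := by
    intro p hp
    have hp' := Nat.prime_of_mem_primeFactors hp
    rw [hcard p (Nat.dvd_of_mem_primeFactors hp) hp'.prime.squarefree, hp'.primeFactors,
      Finset.prod_singleton]
  have h := hPRC G f.primeFactors H (fun t ht => by
    rw [(key t ht).1]
    have h1 := hcard _ (hdvd t ht) (key t ht).2
    rw [Nat.primeFactors_prod (fun p hp => Nat.prime_of_mem_primeFactors (ht hp))] at h1
    have h2 : ((∏ p ∈ t, Nat.card (H p) : ℕ) : ℤ) = ∏ p ∈ t, npD f p D := by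
      push_cast
      exact Finset.prod_congr rfl fun p hp => hcp p (ht hp)
    exact_mod_cast h1.trans h2.symm)
  have hiff : ∀ φ : G →* ℂˣ, Prim K f cl φ ↔ ∀ p ∈ f.primeFactors, ∃ g ∈ H p, φ g ≠ 1 := by
    intro φ
    constructor
    · intro hP p hp
      have hd := Nat.dvd_of_mem_primeFactors hp
      obtain ⟨g, hg, hg'⟩ := hP p (Nat.prime_of_mem_primeFactors hp) hd
      rw [← hH p hd] at hg
      exact ⟨g, hg, hg'⟩
    · intro hP p hp hd
      obtain ⟨g, hg, hg'⟩ := hP p (Nat.mem_primeFactors.2 ⟨hp, hd, by omega⟩)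
      refine ⟨g, ?_, hg'⟩
      rw [← hH p hd]
      exact hg
  rw [Nat.card_congr (Equiv.subtypeEquivRight hiff), h]
  congr 1
  unfold piD
  refine Finset.prod_congr rfl fun p hp => ?_
  unfold pit
  rw [if_pos (Nat.dvd_of_mem_primeFactors hp)]
  have h3 : ((Nat.card (H p) : ℕ) : ℝ) = ((npt f p (ch p D) : ℤ) : ℝ) := by
    have := hcp p hp
    unfold npD at this
    exact_mod_cast this
  rw [h3]

end Pool.Agent.H54.CF
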