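import Pool.Agent.H95.CF.Targets
import Pool.Agent.H16.CN.CG

/-!
# Complete family (`MP_347b49_nt`), row POMS: the weights are summable
-/

set_option autoImplicit false

open NumberField Module MeasureTheory Set Filter
open scoped nonZeroDivisors Real

namespace Pool.Agent.H54.CF

open Pool.Agent.H31.CN Pool.Agent.H95.CF

private theorem nu_le (m : ℕ) (Q : QF) (v : ℤ × ℤ) :
    nu m Q v ≤ ∏ p ∈ m.primeFactors, (prt p Q + 1) := by
  unfold nu
  refine Finset.prod_le_prod' fun p _ => ?_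
  unfold nul
  split_ifs
  · omega
  · omega
  · omega

/-- **OMS.** -/
theorem pf_OMS (hVK : T_VK) (hEPR : T_EPR) (hQDV : T_QDV) : T_OMS := by
  intro S c f D Q hS hf hD hQ
  classical
  obtain ⟨hA, hdsc⟩ := hQ
  have hDR : (0 : ℝ) < D := by exact_mod_cast hD
  have hAR : (0 : ℝ) < ((Q.1 : ℤ) : ℝ) := by exact_mod_cast hA
  have hdR : ((dsc Q : ℤ) : ℝ) = D := by rw [hdsc]; simp
  obtain ⟨CV, hCV, hV, -, -, -⟩ := hVK
  obtain ⟨F, E, -, -, -, h4, -⟩ := hEPR Q.1 Q.2.1 D hAR hDR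
  have hqd : ∀ v, qd Q.1 Q.2.1 D v = val Q v := by
    intro v
    rw [← hdR]
    exact hQDV.2.1 Q v hA
  have hval : ∀ v, v ≠ 0 → 1 ≤ ((val Q v : ℤ) : ℝ) := by
    intro v hv
    have h1 := (hQDV.1 Q.1 Q.2.1 D v hAR hDR).2 hv
    rw [hqd] at h1
    have h2 : 0 < val Q v := by exact_mod_cast h1
    exact_mod_cast h2
  have h0 : om S c f D Q 0 = 0 := by
    unfold om
    have h1 : val Q 0 = 0 := by simp [val]
    simp [h1]
  refine ⟨?_, h0⟩
  have hs := (h4 2 (by norm_num)).summable.norm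
  refine Summable.of_nonneg_of_le (fun v => abs_nonneg _) (fun v => ?_)
    (hs.mul_left (∑ m ∈ S, |c m| * (CV * ((((m * f : ℕ) : ℝ)) ^ 2 * D)) *
      ((∏ p ∈ m.primeFactors, (prt p Q + 1) : ℕ) : ℝ)))
  by_cases hv : v = 0
  · rw [hv, h0]
    simp
  · rw [if_neg hv, hqd]
    have hn := hval v hv
    have hn0 : (0 : ℝ) < ((val Q v : ℤ) : ℝ) := by linarith
    have hnorm : ‖(((((val Q v : ℤ) : ℝ)) : ℂ)) ^ (-(2 : ℂ))‖ =
        1 / ((val Q v : ℤ) : ℝ) ^ 2 := by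
      rw [Complex.norm_cpow_eq_rpow_re_of_pos hn0]
      simp only [Complex.neg_re, Complex.re_ofNat]
      rw [Real.rpow_neg hn0.le]
      norm_num
    rw [hnorm]
    unfold om
    rw [Finset.sum_div, Finset.sum_mul]
    refine (Finset.abs_sum_le_sum_abs _ _).trans (Finset.sum_le_sum fun m hm => ?_)
    have hm1 : 1 ≤ m := Nat.pos_of_ne_zero (hS m hm).ne_zero
    have h5 := Pool.Agent.H16.CN.Vk_bound hCV hV D hDR (m * f) (Nat.mul_pos hm1 hf) _ hn
    have h6 : c m * Vk (((val Q v : ℤ) : ℝ) / (m * (f * Real.sqrt D))) * (nu m Q v : ℝ) /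
        Real.sqrt ((val Q v : ℤ) : ℝ) = c m *
        (Vk (((val Q v : ℤ) : ℝ) / (((m * f : ℕ) : ℝ) * Real.sqrt D)) /
          Real.sqrt ((val Q v : ℤ) : ℝ)) * (nu m Q v : ℝ) := by
      push_cast
      rw [mul_assoc (m : ℝ) (f : ℝ) (Real.sqrt D)]
      ring
    rw [h6, abs_mul, abs_mul, abs_of_nonneg (by positivity : (0 : ℝ) ≤ (nu m Q v : ℝ))]
    have h7 : (nu m Q v : ℝ) ≤ ((∏ p ∈ m.primeFactors, (prt p Q + 1) : ℕ) : ℝ) := by
      exact_mod_cast nu_le m Q v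
    calc |c m| * |Vk (((val Q v : ℤ) : ℝ) / (((m * f : ℕ) : ℝ) * Real.sqrt D)) /
          Real.sqrt ((val Q v : ℤ) : ℝ)| * (nu m Q v : ℝ)
        ≤ |c m| * (CV * ((((m * f : ℕ) : ℝ)) ^ 2 * D) * (1 / ((val Q v : ℤ) : ℝ) ^ 2)) *
          ((∏ p ∈ m.primeFactors, (prt p Q + 1) : ℕ) : ℝ) := by
          gcongr
      _ = _ := by ring

end Pool.Agent.H54.CF
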